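import Pool.Agent.GEN.StmtsU
import Pool.Agent.Helper64_GEN.SMO
import Pool.Agent.Helper51_GEN.DEX

/-!
GEN, block U, row NPO: nondegeneracy on a Zariski open set of coefficients.
-/

set_option autoImplicit false

namespace Pool.Agent.GEN.H69

open MvPolynomial Finset Pool.Agent.Helper6_Mono Pool.Agent.Helper30_Simp
  Pool.Agent.Helper30_Simp2

theorem coeff_fgen {σ : Type} (M : Finset (σ →₀ ℕ)) (α : M) :
    coeff (α : σ →₀ ℕ) (fgen M) = X α := by
  classical
  unfold fgen
  rw [coeff_sum, Finset.sum_eq_single α]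
  · rw [coeff_monomial, if_pos rfl]
  · intro β _ hβ
    rw [coeff_monomial, if_neg]
    intro h
    exact hβ (Subtype.ext h)
  · intro h
    exact absurd (Finset.mem_univ α) h

theorem coeff_fgen_zero {σ : Type} (M : Finset (σ →₀ ℕ)) (α : σ →₀ ℕ) (hα : α ∉ M) :
    coeff α (fgen M) = 0 := by
  classical
  unfold fgen
  rw [coeff_sum]
  refine Finset.sum_eq_zero fun β _ => ?_
  rw [coeff_monomial, if_neg]
  intro h
  apply hα
  rw [← h]
  exact β.2

/-- the part of `fgen M` with exponents in `I` -/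
noncomputable def gI {σ : Type} (M I : Finset (σ →₀ ℕ)) : MvPolynomial σ (MvPolynomial M ℚ) :=
  ∑ α ∈ I, monomial α (coeff α (fgen M))

theorem npo (h1 : SpoStmt) : NpoStmt := by
  classical
  intro σ _ M
  let K : Type := FractionRing (MvPolynomial M ℚ)
  have hinj : Function.Injective (algebraMap (MvPolynomial M ℚ) K) := IsFractionRing.injective _ K
  have : CharZero K := charZero_of_injective_algebraMap hinj
  let f : MvPolynomial σ K := map (algebraMap (MvPolynomial M ℚ) K) (fgen M)
  have hsupp : f.support = M := by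
    ext α
    rw [mem_support_iff]
    show coeff α (map _ (fgen M)) ≠ 0 ↔ _
    rw [coeff_map]
    constructor
    · intro h
      by_contra hα
      apply h
      rw [coeff_fgen_zero M α hα, map_zero]
    · intro hα h
      rw [coeff_fgen M ⟨α, hα⟩] at h
      rw [← map_zero (algebraMap (MvPolynomial M ℚ) K)] at h
      exact X_ne_zero _ (hinj h)
  have hAI : AlgebraicIndependent ℚ (fun α : f.support => f.coeff (α : σ →₀ ℕ)) := by
    rw [algebraicIndependent_iff]
    intro p hp
    have hsub : ∀ α ∈ f.support, α ∈ M := fun α hα => by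
      rwa [hsupp] at hα
    let e : f.support → M := fun α => ⟨α.1, hsub α.1 α.2⟩
    have he : Function.Injective e := by
      intro a b hab
      have hab' : (e a).1 = (e b).1 := by rw [hab]
      exact Subtype.ext hab'
    have h2 : ((aeval (fun α : f.support => f.coeff (α : σ →₀ ℕ)) :
        MvPolynomial f.support ℚ →ₐ[ℚ] K) : MvPolynomial f.support ℚ →+* K)
        = (algebraMap (MvPolynomial M ℚ) K).comp
          ((rename e : MvPolynomial f.support ℚ →ₐ[ℚ] MvPolynomial M ℚ) :
            MvPolynomial f.support ℚ →+* MvPolynomial M ℚ) := by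
      refine MvPolynomial.ringHom_ext' (RingHom.ext_rat _ _) fun α => ?_
      show aeval (fun α : f.support => f.coeff (α : σ →₀ ℕ)) (X α)
        = algebraMap (MvPolynomial M ℚ) K (rename e (X α))
      rw [aeval_X, rename_X]
      show coeff (α : σ →₀ ℕ) (map _ (fgen M)) = _
      rw [coeff_map, ← coeff_fgen M (e α)]
    have h3 : algebraMap (MvPolynomial M ℚ) K (rename e p) = 0 := by
      have := congrArg (fun g : MvPolynomial f.support ℚ →+* K => g p) h2
      exact this.symm.trans hp
    rw [← map_zero (algebraMap (MvPolynomial M ℚ) K)] at h3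
    have h4 := hinj h3
    rw [← map_zero (rename e : MvPolynomial f.support ℚ →ₐ[ℚ] MvPolynomial M ℚ)] at h4
    exact rename_injective e he h4
  have hI : ∀ I : Finset (σ →₀ ℕ), ∃ h : MvPolynomial M ℚ, h ≠ 0 ∧ (I ⊆ M → I.Nonempty →
      ∀ (k : Type) [Field k] (φ : MvPolynomial M ℚ →+* k), φ h ≠ 0 →
        TorusSmooth (map φ (gI M I))) := by
    intro I
    by_cases hIM : I ⊆ M ∧ I.Nonempty
    · have h2 := H64.smo H51.dex K σ f hAI I (by rw [hsupp]; exact hIM.1) hIM.2
      have h3 : part f I = map (algebraMap (MvPolynomial M ℚ) K) (gI M I) := by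
        unfold part gI
        rw [map_sum]
        refine Finset.sum_congr rfl fun α _ => ?_
        rw [map_monomial]
        show monomial α (coeff α (map _ (fgen M))) = _
        rw [coeff_map]
      rw [h3] at h2
      obtain ⟨h, hh, h4⟩ := h1 σ (MvPolynomial M ℚ) K (gI M I) h2
      exact ⟨h, hh, fun _ _ => h4⟩
    · exact ⟨1, one_ne_zero, fun h2 h3 => absurd ⟨h2, h3⟩ hIM⟩
  choose h hh0 hh using hI
  refine ⟨∏ I ∈ M.powerset, h I, Finset.prod_ne_zero_iff.2 fun I _ => hh0 I, ?_⟩
  intro F hF hH I hIF hne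
  rw [hF] at hIF
  rw [map_prod, Finset.prod_ne_zero_iff] at hH
  have h5 := hH I (Finset.mem_powerset.2 hIF)
  have h6 := hh I hIF hne ℂ
    ((aeval (fun α : M => F.coeff (α : σ →₀ ℕ)) : MvPolynomial M ℚ →ₐ[ℚ] ℂ) :
      MvPolynomial M ℚ →+* ℂ) h5
  have h7 : map ((aeval (fun α : M => F.coeff (α : σ →₀ ℕ)) : MvPolynomial M ℚ →ₐ[ℚ] ℂ) :
      MvPolynomial M ℚ →+* ℂ) (gI M I) = part F I := by
    unfold part gI
    rw [map_sum]
    refine Finset.sum_congr rfl fun α hα => ?_
    rw [map_monomial, coeff_fgen M ⟨α, hIF hα⟩]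
    congr 1
    show aeval (fun α : M => F.coeff (α : σ →₀ ℕ)) (X (⟨α, hIF hα⟩ : M)) = _
    rw [aeval_X]
  rw [h7] at h6
  exact h6

end Pool.Agent.GEN.H69
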